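import Pool.Agent.H16.Mono2

namespace Pool.Agent.Results.MP_048963_co.Sporadic

open Pool.Agent.H16.Mono

theorem result : ∃ R B : Set (ℝ × ℝ), R.Finite ∧ B.Finite ∧ Disjoint R B ∧
    (∀ C, IsCircle C → 3 ≤ (C ∩ (R ∪ B)).ncard → (∃ p ∈ R, p ∈ C) ∧ ∃ p ∈ B, p ∈ C) ∧
    (∀ C, IsCircle C ∨ IsLine C → ¬ R ⊆ C ∧ ¬ B ⊆ C) ∧
    ∀ G, IsListed G → ¬ R ∪ B ⊆ G ∧ ∀ c ρ, 0 < ρ → c ∉ R ∪ B → ¬ inv c ρ '' (R ∪ B) ⊆ G :=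
  main

end Pool.Agent.Results.MP_048963_co.Sporadic
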